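import Pool.Agent.Helper28.SO.Defs

set_option autoImplicit false

/-! SO-10: the vector span of a cell. -/

namespace Pool.Agent.Helper28.SO

private theorem vs_point {n d : ℕ} (f : Fin n → Fin d) (x : Fin d → ℝ)
    (hx : ∀ k, x k = ((Finset.univ.filter (fun i => f i = k)).card : ℝ)) :
    x = ∑ i, (Pi.single (f i) (1 : ℝ) : Fin d → ℝ) := by
  funext k
  rw [hx k, Finset.sum_apply, Finset.card_filter]
  push_cast
  refine Finset.sum_congr rfl fun i _ => ?_
  by_cases h : f i = k
  · subst h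
    simp
  · rw [if_neg h, Pi.single_eq_of_ne (fun h' => h h'.symm)]

/-- SO-10. -/
theorem vectorSpan_cell {n d : ℕ} (B : Fin n → Finset (Fin d)) (hB : ∀ i, (B i).Nonempty) :
    vectorSpan ℝ (cell B) = Submodule.span ℝ
      {z : Fin d → ℝ | ∃ i, ∃ k ∈ B i, ∃ k' ∈ B i, z = Pi.single k 1 - Pi.single k' 1} := by
  have h1 : vectorSpan ℝ (cell B) = vectorSpan ℝ {x : Fin d → ℝ | ∃ f : Fin n → Fin d,
      (∀ i, f i ∈ B i) ∧ ∀ k, x k = ((Finset.univ.filter (fun i => f i = k)).card : ℝ)} := by
    unfold cell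
    rw [← direction_affineSpan, ← direction_affineSpan, affineSpan_convexHull]
  rw [h1]
  apply le_antisymm
  · rw [vectorSpan_def, Submodule.span_le]
    rintro z ⟨x, ⟨f, hf, hx⟩, y, ⟨g, hg, hy⟩, rfl⟩
    rw [vs_point f x hx, vs_point g y hy]
    change (∑ i, (Pi.single (f i) (1 : ℝ) : Fin d → ℝ)) - ∑ i, (Pi.single (g i) (1 : ℝ) : Fin d → ℝ) ∈ _
    rw [← Finset.sum_sub_distrib]
    refine Submodule.sum_mem _ fun i _ => Submodule.subset_span ?_
    exact ⟨i, f i, hf i, g i, hg i, rfl⟩
  · rw [Submodule.span_le]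
    rintro z ⟨i, k, hk, k', hk', rfl⟩
    choose f₀ hf₀ using hB
    have hmem : ∀ c ∈ B i, ∀ j, Function.update f₀ i c j ∈ B j := by
      intro c hc j
      by_cases hj : j = i
      · subst hj
        rw [Function.update_self]
        exact hc
      · rw [Function.update_of_ne hj]
        exact hf₀ j
    have hp : ∀ f : Fin n → Fin d, (∀ j, f j ∈ B j) →
        (∑ j, (Pi.single (f j) (1 : ℝ) : Fin d → ℝ)) ∈ {x : Fin d → ℝ | ∃ f : Fin n → Fin d,
          (∀ i, f i ∈ B i) ∧ ∀ k, x k = ((Finset.univ.filter (fun i => f i = k)).card : ℝ)} := by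
      intro f hf
      refine ⟨f, hf, fun c => ?_⟩
      exact (congrFun (vs_point f (fun c => ((Finset.univ.filter (fun i => f i = c)).card : ℝ))
        (fun _ => rfl)) c).symm
    have h2 := vsub_mem_vectorSpan ℝ (hp _ (hmem k hk)) (hp _ (hmem k' hk'))
    have h3 : (∑ j, (Pi.single (Function.update f₀ i k j) (1 : ℝ) : Fin d → ℝ)) -
        ∑ j, (Pi.single (Function.update f₀ i k' j) (1 : ℝ) : Fin d → ℝ) =
        Pi.single k 1 - Pi.single k' 1 := by
      rw [← Finset.sum_sub_distrib, Finset.sum_eq_single i]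
      · rw [Function.update_self, Function.update_self]
      · intro j _ hj
        rw [Function.update_of_ne hj, Function.update_of_ne hj, sub_self]
      · intro h
        exact absurd (Finset.mem_univ i) h
    rw [vsub_eq_sub, h3] at h2
    exact h2

end Pool.Agent.Helper28.SO
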